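import Mathlib
import Pool.Agent.Q155.Simp.Defs
import Pool.Agent.Q155.Simp.Model
import Pool.Agent.Q155.Simp.Ref
import Pool.Agent.Q155.Simp.Lower

/-!
# MP_ff4a33_gt: the least dimension of a simplicial refinement

The model on `Dif n` (half the difference body of the standard simplex, dimension `n - 1`, with
`n (n - 1)` extreme points) has a simplicial refinement of dimension `2 n - 1`, and none of smaller
dimension. So the least dimension is not (number of extreme points) - 1 in general.
-/

set_option autoImplicit false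
open Set Pool.Agent.Q155.Simp

namespace Pool.Agent.Results.MP_ff4a33_gt.DifferenceBodies

/-- the dimensions of the simplicial refinements of the model on `C` -/
def RefinementDims {E : Type} [AddCommGroup E] [Module ℝ E] (C : Set E) : Set ℕ :=
  {d | ∃ (F : Type) (_ : AddCommGroup F) (_ : Module ℝ F) (_ : FiniteDimensional ℝ F)
    (T : Set F) (v : Fin (d + 1) → F) (Df : Set F) (f : F → E) (Dg : Set (T → ℝ))
    (g : (T → ℝ) → (C → ℝ)), IsSimplexWith T v ∧ IsRefinement C T Df f Dg g}

theorem result (n : ℕ) (hn : 3 ≤ n) :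
    IsPolytope (Dif n) ∧ ¬ IsSimplex (Dif n) ∧
    ((Dif n).extremePoints ℝ).ncard = n * (n - 1) ∧
    IsLeast (RefinementDims (Dif n)) (2 * n - 1) := by
  classical
  refine ⟨isPolytope_Dif (by omega), not_isSimplex_Dif hn, ncard_extremePoints (by omega), ?_, ?_⟩
  · obtain ⟨Dg, g, h⟩ := exists_refinement_Dif (n := n) (by omega)
    have hc : Fintype.card (Fin (2 * n - 1 + 1)) = Fintype.card (Fin n ⊕ Fin n) := by
      rw [Fintype.card_sum, Fintype.card_fin, Fintype.card_fin]
      omega
    obtain ⟨e⟩ := Fintype.card_eq.1 hc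
    refine ⟨Fin n ⊕ Fin n → ℝ, inferInstance, inferInstance, inferInstance, TT n,
      fun k => Pi.single (e k) (1 : ℝ), DD n, ff, Dg, g, ?_, h⟩
    have h1 := isSimplexWith_TT n
    refine ⟨?_, ?_⟩
    · exact h1.1.comp_embedding e.toEmbedding
    · rw [h1.2]
      congr 1
      ext x
      constructor
      · rintro ⟨k, rfl⟩
        exact ⟨e.symm k, by simp⟩
      · rintro ⟨k, rfl⟩
        exact ⟨e k, rfl⟩
  · rintro d ⟨F, _, _, _, T, v, Df, f, Dg, g, hT, h⟩
    obtain ⟨lam, W, h1, h2, h3, h4⟩ := h.factor hT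
    obtain ⟨m, rfl⟩ : ∃ m, n = m + 3 := ⟨n - 3, by omega⟩
    have h5 := card_lower lam W h1 h2 h3 h4
    rw [Fintype.card_fin] at h5
    omega

end Pool.Agent.Results.MP_ff4a33_gt.DifferenceBodies
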